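import Pool.Agent.H31.Kraw

namespace Pool.Agent.Results.MP_66ba75_co.LargestRoot

open Finset Pool.Agent.H31.Kraw

/-- `e_k(n,a)`: number of edges of the complete oddly bipartite `2k`-graph with parts `a`, `n-a`. -/
def e (k n a : ℕ) : ℕ := ∑ i ∈ range (2 * k + 1) with Odd i, a.choose i * (n - a).choose (2 * k - i)

/-- Binomial coefficient with real upper argument. -/
noncomputable def binom (x : ℝ) (j : ℕ) : ℝ := (∏ i ∈ range j, (x - i)) / j.factorial

/-- The binary Krawtchouk polynomial `K_m(x;n)` at a real point. -/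
noncomputable def kraw (m n : ℕ) (x : ℝ) : ℝ :=
  ∑ j ∈ range (m + 1), (-1) ^ j * binom x j * binom (n - x) (m - j)

theorem kraw_eq (m n : ℕ) (x : ℝ) : kraw m n x = (P m n).eval x := by
  rw [P, kraw, Polynomial.eval_finsetSum]
  refine sum_congr rfl fun j _ => ?_
  simp only [Polynomial.eval_mul, Polynomial.eval_C, Polynomial.eval_comp, Polynomial.eval_sub,
    Polynomial.eval_X, descPochhammer_eval_eq_prod_range, binom]
  field_simp

theorem e_eq (k n a : ℕ) (ha : a ≤ n) :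
    2 * (e k n a : ℝ) = n.choose (2 * k) - K (2 * k) a (n - a) := by
  have v := Nat.add_choose_eq a (n - a) (2 * k)
  rw [Nat.add_sub_cancel' ha, Finset.Nat.sum_antidiagonal_eq_sum_range_succ_mk] at v
  rw [v, K_eq, e, sum_filter]
  push_cast
  rw [mul_sum, ← sum_sub_distrib]
  refine sum_congr rfl fun j _ => ?_
  rcases Nat.even_or_odd j with h | h
  · simp [h.neg_one_pow, Nat.not_odd_iff_even.2 h]
  · simp only [h, if_true, h.neg_one_pow]; ring

theorem result (k n : ℕ) (hk : 1 ≤ k) (hn : 16 * (2 * k) ^ 4 < n) :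
    ∃ ξ : ℝ, IsGreatest {x : ℝ | kraw (2 * k - 1) (n - 1) x = 0} ξ ∧ 0 < ξ ∧
      ∀ a : ℕ, a ≤ n → n ≤ 2 * a →
        ((∀ b ≤ n, e k n b ≤ e k n a) ↔ (a = ⌈ξ⌉₊ ∨ a = ⌊ξ⌋₊ + 1)) := by
  obtain ⟨N, rfl⟩ : ∃ N, n = N + 1 := ⟨n - 1, by omega⟩
  obtain ⟨d, hd⟩ : ∃ d, 2 * k = d + 1 := ⟨2 * k - 1, by omega⟩
  have hk4 : 2 * k ≤ (2 * k) ^ 4 := Nat.le_self_pow (by norm_num) _
  obtain ⟨ξ, h1, h2, h3, h4, h5⟩ := roots d N ⟨k - 1, by omega⟩ (by omega)
  rw [show 2 * k - 1 = d by omega, Nat.add_sub_cancel]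
  refine ⟨ξ, by simpa only [kraw_eq] using h1, h2, ?_⟩
  let u : ℕ → ℝ := fun x => K (2 * k) x (N + 1 - x)
  have eu : ∀ a b, a ≤ N + 1 → b ≤ N + 1 → (e k (N + 1) b ≤ e k (N + 1) a ↔ u a ≤ u b) := by
    intro a b ha hb
    have e1 := e_eq k _ a ha
    have e2 := e_eq k _ b hb
    rw [← Nat.cast_le (α := ℝ)]
    simp only [u]
    constructor <;> intro h <;> linarith
  have D : ∀ x, x ≤ N → u (x + 1) - u x = -2 * (P d N).eval (x : ℝ) := by
    intro x hx
    rw [P_eval d N x hx, ← K_diff]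
    simp only [u, hd]
    rw [show N + 1 - (x + 1) = N - x by omega, show N + 1 - x = N - x + 1 by omega]
  have hr : ∀ t, t + 2 ≤ N + 1 → (((N + 1 : ℕ) : ℝ) - (t + 1)) * (u (t + 2) - u (t + 1)) -
      (t + 1) * (u (t + 1) - u t) = -2 * ((2 * k : ℕ) : ℝ) * u (t + 1) := by
    intro t ht
    obtain ⟨b, rfl⟩ : ∃ b, N = t + 1 + b := ⟨N - (t + 1), by omega⟩
    have := K_rec (2 * k) t b
    simp only [u]
    rw [show t + 1 + b + 1 - (t + 2) = b by omega, show t + 1 + b + 1 - (t + 1) = b + 1 by omega,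
      show t + 1 + b + 1 - t = b + 2 by omega]
    push_cast at this ⊢
    linear_combination this
  obtain ⟨c, hc⟩ : ∃ c, ⌈ξ⌉₊ = c + 1 := ⟨⌈ξ⌉₊ - 1, by have := Nat.ceil_pos.2 h2; omega⟩
  have cN : c + 1 ≤ N := by rw [← hc]; exact Nat.ceil_le.2 h3.le
  have c1 : ξ ≤ ((c + 1 : ℕ) : ℝ) := hc ▸ Nat.le_ceil ξ
  have d1 : u (c + 1) < u c := by
    have := D c (by omega)
    rw [hc] at h5
    push_cast at h5
    rw [add_sub_cancel_right] at h5
    linarith
  have d2 : u (c + 1) ≤ u (c + 2) := by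
    have := D (c + 1) cN
    rcases c1.eq_or_lt with h | h
    · have h0 : (P d N).eval ξ = 0 := h1.1
      rw [← h, h0] at this; linarith
    · have := h4 _ h; linarith
  have fl : ⌊ξ⌋₊ + 1 = c + 1 ∨ (⌊ξ⌋₊ + 1 = c + 2 ∧ u (c + 2) = u (c + 1)) := by
    rcases c1.eq_or_lt with h | h
    · right
      have := D (c + 1) cN
      have h0 : (P d N).eval ξ = 0 := h1.1
      rw [← h, h0] at this
      exact ⟨by rw [h, Nat.floor_natCast], by linarith⟩
    · left
      have := (Nat.floor_lt h2.le).2 h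
      have := Nat.ceil_le_floor_add_one ξ
      omega
  have fwd : ∀ a, a ≤ N + 1 → N + 1 ≤ 2 * a → (∀ b ≤ N + 1, u a ≤ u b) →
      a = c + 1 ∨ a = ⌊ξ⌋₊ + 1 := by
    intro a ha ha2 hmin
    by_contra hne
    push Not at hne
    rcases le_or_gt a c with h | h
    · exact energy (N + 1) (2 * k) u (by omega) hn hr a c ha2 h (by omega) d1 d2 (hmin _ (by omega))
    · obtain ⟨x, rfl⟩ : ∃ x, a = x + 1 := ⟨a - 1, by omega⟩
      have : ξ < x := (Nat.floor_lt h2.le).1 (by omega)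
      have := h4 _ this
      have := D x (by omega)
      have := hmin x (by omega)
      linarith
  have sym : ∀ b, b ≤ N + 1 → u (N + 1 - b) = u b := by
    intro b hb
    simp only [u]
    rw [K_symm, show N + 1 - (N + 1 - b) = b by omega]
  have glob : ∀ b ≤ N + 1, u (c + 1) ≤ u b := by
    obtain ⟨a, ha, hmin⟩ := exists_min_image (range (N + 2)) u ⟨0, by simp⟩
    have ha := mem_range.1 ha
    have hmin' : ∀ b ≤ N + 1, u a ≤ u b := fun b hb => hmin b (mem_range.2 (by omega))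
    have : ∃ a', a' ≤ N + 1 ∧ N + 1 ≤ 2 * a' ∧ u a' = u a := by
      by_cases h : N + 1 ≤ 2 * a
      · exact ⟨a, by omega, h, rfl⟩
      · exact ⟨N + 1 - a, by omega, by omega, sym a (by omega)⟩
    obtain ⟨a', g1, g2, g3⟩ := this
    have g4 : u a' = u (c + 1) := by
      rcases fwd a' g1 g2 (fun b hb => g3 ▸ hmin' b hb) with h | h
      · rw [h]
      · rcases fl with f | f
        · rw [h, f]
        · rw [h, f.1, f.2]
    intro b hb
    rw [← g4, g3]; exact hmin' b hb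
  intro a ha ha2
  rw [hc]
  constructor
  · exact fun h => fwd a ha ha2 fun b hb => (eu a b ha hb).1 (h b hb)
  · intro h b hb
    rw [eu a b ha hb]
    have : u a = u (c + 1) := by
      rcases h with h | h
      · rw [h]
      · rcases fl with f | f
        · rw [h, f]
        · rw [h, f.1, f.2]
    rw [this]; exact glob b hb

end Pool.Agent.Results.MP_66ba75_co.LargestRoot
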